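import Pool.Agent.R290.WaveFinal

/-!
# MP_b00f94_an, Q1: a wavelet set that tiles multiplicatively by no set of automorphisms

`G = ℝ`, `Ω = [3/7,5/7) ∪ [1,2) ∪ [3,24/7) ∪ [40/7,6)`, `Λ = ℤ - 1/2` (which does not contain `0`)
and, for any `c > 0`, `A = {± c 2^n : n ∈ ℤ}`.
-/

namespace Pool.Agent.Results.MP_b00f94_an.NoMultiplicativeTiling

open MeasureTheory FourierTransform Set
open scoped ENNReal InnerProductSpace

/-- the modulus of an automorphism of `ℝ`: the Lebesgue measure of the image of `[0,1]` -/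
noncomputable def modulus (a : ℝ ≃ₜ+ ℝ) : ℝ := (volume (a '' Icc 0 1)).toReal

/-- `Ω` is a wavelet set in `ℝ` with respect to the dilation set `A` and the translation
set `Λ`: with `ψ` the inverse Fourier transform of `1_Ω`, the elements
`ψ_{λ,a}(x) = Δ(a)^{1/2} ψ(a(x) - λ)` of `L²(ℝ)` are nonzero, pairwise orthogonal and span a
dense subspace. -/
def IsWaveletSet (Ω Λ : Set ℝ) (A : Set (ℝ ≃ₜ+ ℝ)) : Prop :=
  Λ.Countable ∧ A.Countable ∧ MeasurableSet Ω ∧ 0 < volume Ω ∧ volume Ω < ⊤ ∧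
  ∃ ψ : Lp (α := ℝ) ℂ 2 volume,
    (𝓕 ψ : Lp (α := ℝ) ℂ 2 volume) =ᵐ[volume] Ω.indicator (fun _ => (1 : ℂ)) ∧
    ∃ Φ : ℝ × (ℝ ≃ₜ+ ℝ) → Lp (α := ℝ) ℂ 2 volume,
      (∀ p ∈ Λ ×ˢ A, Φ p =ᵐ[volume] fun x => ((√(modulus p.2) : ℝ) : ℂ) * ψ (p.2 x - p.1)) ∧
      (∀ p ∈ Λ ×ˢ A, ∀ q ∈ Λ ×ˢ A, p ≠ q → ⟪Φ p, Φ q⟫_ℂ = 0) ∧
      (∀ p ∈ Λ ×ˢ A, Φ p ≠ 0) ∧
      (Submodule.span ℂ (Φ '' (Λ ×ˢ A))).topologicalClosure = ⊤

/-- `β` is the adjoint of `α` for the pairing `⟨ξ, x⟩ = exp (2 π i ξ x)` -/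
def IsAdjoint (α β : ℝ ≃ₜ+ ℝ) : Prop :=
  ∀ ξ x : ℝ, Real.fourierChar (β ξ * x) = Real.fourierChar (ξ * α x)

/-- `Ω` tiles multiplicatively, with multiplicity one, by the set `A'` of automorphisms,
acting through their adjoints -/
def TilesMul (Ω : Set ℝ) (A' : Set (ℝ ≃ₜ+ ℝ)) : Prop :=
  ∃ adj : (ℝ ≃ₜ+ ℝ) → (ℝ ≃ₜ+ ℝ), (∀ α, IsAdjoint α (adj α)) ∧
    ∀ᵐ ξ : ℝ, ∑' α : A', (adj α '' Ω).indicator (fun _ => (1 : ℝ≥0∞)) ξ = 1

/-- the wavelet set -/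
def Omega : Set ℝ := Ico (3 / 7) (5 / 7) ∪ Ico 1 2 ∪ Ico 3 (24 / 7) ∪ Ico (40 / 7) 6

/-- the translation set `ℤ - 1/2` -/
def Trans : Set ℝ := {x | ∃ m : ℤ, x = m - 1 / 2}

/-- the dilation set `{± c 2^n}` -/
def Dil (c : ℝ) : Set (ℝ ≃ₜ+ ℝ) := {a | ∃ n : ℤ, a 1 = c * 2 ^ n ∨ a 1 = -(c * 2 ^ n)}

lemma char_one {x : ℝ} (h : Real.fourierChar x = 1) : ∃ n : ℤ, x = n := by
  have h1 : (Real.fourierChar x : ℂ) = 1 := by rw [h]; rfl
  rw [Real.fourierChar_apply, Complex.exp_eq_one_iff] at h1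
  obtain ⟨n, hn⟩ := h1
  refine ⟨n, ?_⟩
  have h2 : (2 * Real.pi * Complex.I : ℂ) ≠ 0 := Complex.two_pi_I_ne_zero
  have h3 : (2 * Real.pi * Complex.I : ℂ) * x = (2 * Real.pi * Complex.I) * n := by
    rw [mul_comm _ (n : ℂ), ← hn]
    push_cast
    ring
  exact_mod_cast mul_left_cancel₀ h2 h3

lemma adjoint_eq {α β : ℝ ≃ₜ+ ℝ} (h : IsAdjoint α β) : β = α := by
  apply R290.WaveFinal.auto_ext
  by_contra hne
  have hd : β 1 - α 1 ≠ 0 := sub_ne_zero.2 hne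
  have h1 := h 1 ((β 1 - α 1)⁻¹ * (1 / 2))
  have h2 : Real.fourierChar (β 1 * ((β 1 - α 1)⁻¹ * (1 / 2)) -
      1 * α ((β 1 - α 1)⁻¹ * (1 / 2))) = 1 := by
    rw [AddChar.map_sub_eq_div, h1, div_self']
  have h3 : β 1 * ((β 1 - α 1)⁻¹ * (1 / 2)) - 1 * α ((β 1 - α 1)⁻¹ * (1 / 2)) = 1 / 2 := by
    rw [R290.WaveFinal.auto_apply α ((β 1 - α 1)⁻¹ * (1 / 2))]
    calc _ = (β 1 - α 1) * (β 1 - α 1)⁻¹ * (1 / 2) := by ring
      _ = 1 / 2 := by rw [mul_inv_cancel₀ hd, one_mul]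
  rw [h3] at h2
  obtain ⟨n, hn⟩ := char_one h2
  have h4 : ((2 * n : ℤ) : ℝ) = ((1 : ℤ) : ℝ) := by push_cast; linarith
  have h5 : 2 * n = 1 := by exact_mod_cast h4
  omega

lemma prod_eq (c : ℝ) (hc : 0 < c) : Trans ×ˢ Dil c = range fun i : R290.WaveMain.Idx =>
    (R290.WaveMain.fr 0 i,
      R290.WaveFinal.mulE (R290.WaveMain.dil c i) (R290.WaveMain.dil_ne c hc i)) := by
  ext ⟨x, a⟩
  constructor
  · rintro ⟨⟨m, hm⟩, n, ha⟩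
    obtain ⟨b, hb⟩ : ∃ b : Bool, a 1 = R290.WaveMain.sg b * c * 2 ^ n := by
      rcases ha with ha | ha
      · exact ⟨true, by rw [ha]; unfold R290.WaveMain.sg; simp⟩
      · exact ⟨false, by rw [ha]; unfold R290.WaveMain.sg; simp⟩
    refine ⟨(b, n, m), ?_⟩
    apply Prod.ext
    · simp only [R290.WaveMain.fr]
      simp only at hm
      rw [hm]
      ring
    · apply R290.WaveFinal.auto_ext
      simp only [R290.WaveFinal.mulE_apply, mul_one, R290.WaveMain.dil]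
      rw [hb]
  · rintro ⟨⟨b, n, m⟩, h⟩
    obtain ⟨h1, h2⟩ := Prod.ext_iff.1 h
    simp only at h1 h2
    subst h1 h2
    refine ⟨⟨m, ?_⟩, n, ?_⟩
    · simp only [R290.WaveMain.fr]
      ring
    · simp only [R290.WaveFinal.mulE_apply, mul_one, R290.WaveMain.dil, R290.WaveMain.sg]
      cases b
      · right; simp
      · left; simp

/-- **The answer to Q1 is no.** `Ω = [3/7,5/7) ∪ [1,2) ∪ [3,24/7) ∪ [40/7,6)` is a wavelet set
in `ℝ` for the translations `ℤ - 1/2`, which do not contain `0`, and the dilations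
`{± c 2^n : n ∈ ℤ}`, for every `c > 0`; but it tiles `ℝ` multiplicatively by no set of
automorphisms of `ℝ`, countable or not. -/
theorem result : (0 : ℝ) ∉ Trans ∧ (∀ c : ℝ, 0 < c → IsWaveletSet Omega Trans (Dil c)) ∧
    ∀ A' : Set (ℝ ≃ₜ+ ℝ), ¬ TilesMul Omega A' := by
  refine ⟨?_, ?_, ?_⟩
  · rintro ⟨m, hm⟩
    have h4 : ((2 * m : ℤ) : ℝ) = ((1 : ℤ) : ℝ) := by push_cast; linarith
    have h5 : 2 * m = 1 := by exact_mod_cast h4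
    omega
  · intro c hc
    obtain ⟨h1, h2⟩ := R290.WaveFinal.wavelet 0 c hc (Trans ×ˢ Dil c) (prod_eq c hc)
    refine ⟨?_, ?_, R290.WaveBasis.Om_meas, R290.WaveMain.Om_vol_pos, R290.WaveMain.Om_vol, h2⟩
    · refine (h1.image Prod.fst).mono ?_
      intro x hx
      refine ⟨(x, R290.WaveFinal.mulE c hc.ne'), ⟨hx, 0, Or.inl ?_⟩, rfl⟩
      simp [R290.WaveFinal.mulE_apply]
    · refine (h1.image Prod.snd).mono ?_
      intro a ha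
      exact ⟨((0 : ℤ) - 1 / 2, a), ⟨⟨0, rfl⟩, ha⟩, rfl⟩
  · rintro A' ⟨adj, hadj, h⟩
    have h1 : ∀ α, adj α = α := fun α => adjoint_eq (hadj α)
    simp only [h1] at h
    exact R290.WaveFinal.not_tiles A' h

end Pool.Agent.Results.MP_b00f94_an.NoMultiplicativeTiling
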